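import Pool.Agent.Helper66_KF.Stmts
import Pool.Agent.Helper51_D1.Cld
import Pool.Agent.Helper27_D1.Fd1

/-!
# Squad KF, module DU4: the blocks of the centraliser of an involution

Text: `AWC_KF.md`.  A block `c` of the centraliser of the involution `u`, below a block `b` with
Klein four defect groups, has Klein four defect groups.
-/

open scoped BigOperators

set_option linter.unusedSectionVars false

noncomputable section

namespace Pool.Agent.PP.KF.H24

open Pool.Agent.Helper51_AWC Pool.Agent.Helper79_WRA Pool.Agent.PP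
open Pool.Agent.PP.D1.H27 (clsum_pos clsum_neg)

section grp

theorem v4_sub : DF.SubCl V4 := by
  intro Q R _ _ j hj hR
  obtain ⟨k, hk⟩ := hR
  exact ⟨k.comp j, hk.comp hj⟩

theorem inv2_order {G : Type} [Group G] {u : G} (hu : Inv2 u) : orderOf u = 2 :=
  orderOf_eq_prime (by rw [pow_two]; exact hu.sq) hu.ne

theorem inv2_card {G : Type} [Group G] {u : G} (hu : Inv2 u) :
    Nat.card (Subgroup.zpowers u) = 2 := by
  rw [Nat.card_zpowers, inv2_order hu]

theorem inv2_pgroup {G : Type} [Group G] {u : G} (hu : Inv2 u) :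
    IsPGroup 2 (Subgroup.zpowers u) :=
  IsPGroup.of_card (n := 1) (by rw [inv2_card hu, pow_one])

theorem mem_zpowers_inv2 {G : Type} [Group G] {u v : G} (hu : Inv2 u)
    (hv : v ∈ Subgroup.zpowers u) : v = 1 ∨ v = u := by
  obtain ⟨n, rfl⟩ := hv
  have h1 : u ^ (2 : ℤ) = 1 := by
    rw [zpow_two]
    exact hu.sq
  change u ^ n = 1 ∨ u ^ n = u
  rcases Int.even_or_odd' n with ⟨k, hk | hk⟩
  · left
    rw [hk, zpow_mul, h1, one_zpow]
  · right
    rw [hk, zpow_add, zpow_mul, h1, one_zpow, zpow_one, one_mul]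

/-- two involutions of a group whose order is not divisible by four are conjugate -/
theorem invol_conj {D : Type} [Group D] [Finite D] (h4 : ¬ 4 ∣ Nat.card D) {a b : D}
    (ha : Inv2 a) (hb : Inv2 b) : ∃ s, s * a * s⁻¹ = b := by
  have hfact : Fact (Nat.Prime 2) := ⟨Nat.prime_two⟩
  have hidx : ∀ {c : D}, Inv2 c → ¬ 2 ∣ (Subgroup.zpowers c).index := by
    intro c hc hd
    apply h4
    rw [← Subgroup.card_mul_index (Subgroup.zpowers c), inv2_card hc]
    exact mul_dvd_mul_left 2 hd
  let A : Sylow 2 D := (inv2_pgroup ha).toSylow (hidx ha)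
  let B : Sylow 2 D := (inv2_pgroup hb).toSylow (hidx hb)
  obtain ⟨s, hs⟩ := MulAction.exists_smul_eq D A B
  refine ⟨s, ?_⟩
  have h1 : a ∈ A := Subgroup.mem_zpowers a
  have h2 : s * a * s⁻¹ ∈ (A.1 : Subgroup D).map (MulAut.conj s).toMonoidHom := ⟨a, h1, rfl⟩
  have h3 : s * a * s⁻¹ ∈ s • A := h2
  rw [hs] at h3
  have h5 : s * a * s⁻¹ ∈ Subgroup.zpowers b := h3
  rcases mem_zpowers_inv2 hb h5 with h | h
  · exfalso
    apply ha.ne
    have h6 : s * a = s := mul_inv_eq_one.1 h
    exact mul_eq_left.1 h6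
  · exact h

variable {X : Type} [Group X] [Finite X]

/-- the centraliser of a conjugate -/
theorem card_cent_conj (x r : X) :
    Nat.card (Subgroup.centralizer ({r * x * r⁻¹} : Set X)) =
      Nat.card (Subgroup.centralizer ({x} : Set X)) := by
  have h1 := D1H51.centralizer_conj x r (N := ⊤) (Subgroup.mem_top r)
  rw [inf_top_eq, inf_top_eq] at h1
  rw [h1, card_conjS]

/-- a subgroup of order four containing the involution `u` of the centraliser of `y` -/
theorem exists_four {u y : X} (hu : Inv2 u) (huy : u * y = y * u)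
    (hd : 4 ∣ Nat.card (Subgroup.centralizer ({y} : Set X))) :
    ∃ V : Subgroup X, Nat.card V = 4 ∧ V ≤ Subgroup.centralizer ({u} : Set X) ∧
      V ≤ Subgroup.centralizer ({y} : Set X) := by
  have hfact : Fact (Nat.Prime 2) := ⟨Nat.prime_two⟩
  have huD : u ∈ Subgroup.centralizer ({y} : Set X) :=
    Subgroup.mem_centralizer_singleton_iff.2 huy
  set D := Subgroup.centralizer ({y} : Set X) with hD
  have hu' : Inv2 (⟨u, huD⟩ : D) := by
    refine ⟨Subtype.ext hu.sq, ?_⟩
    intro h
    exact hu.ne (congrArg Subtype.val h)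
  have hcard : Nat.card (Subgroup.zpowers (⟨u, huD⟩ : D)) = 2 ^ 1 := by
    rw [inv2_card hu', pow_one]
  obtain ⟨K, hK, hle⟩ := Sylow.exists_subgroup_card_pow_succ (p := 2) (n := 1)
    (by norm_num; exact hd) hcard
  have hcomm : ∀ v w : K, v * w = w * v := by
    have hK2 : Nat.card K = 2 ^ 2 := hK
    have := IsPGroup.commutative_of_card_eq_prime_sq hK2
    exact this
  refine ⟨K.map D.subtype, ?_, ?_, ?_⟩
  · rw [Subgroup.card_map_of_injective D.subtype_injective, hK]
    norm_num
  · rintro _ ⟨v, hv, rfl⟩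
    rw [Subgroup.mem_centralizer_singleton_iff]
    have h1 : (⟨u, huD⟩ : D) ∈ K := hle (Subgroup.mem_zpowers _)
    have h2 := hcomm ⟨v, hv⟩ ⟨_, h1⟩
    have h3 : v * ⟨u, huD⟩ = ⟨u, huD⟩ * v := congrArg Subtype.val h2
    exact congrArg Subtype.val h3
  · exact Subgroup.map_subtype_le K

/-- the conjugates of `y` in the centraliser of `u` -/
theorem conj_iff {u : X} (hu : Inv2 u) (y : Cu u)
    (h4 : ¬ 4 ∣ Nat.card (Subgroup.centralizer ({(y : X)} : Set X))) (t : Cu u) :
    (∃ r : X, (t : X) = r * y * r⁻¹) ↔ ∃ r : Cu u, t = r * y * r⁻¹ := by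
  constructor
  · rintro ⟨r, hr⟩
    have hyu : (y : X) * u = u * y := Subgroup.mem_centralizer_singleton_iff.1 y.2
    have htu : (t : X) * u = u * t := Subgroup.mem_centralizer_singleton_iff.1 t.2
    set D := Subgroup.centralizer ({(t : X)} : Set X) with hD
    have h1 : u ∈ D := Subgroup.mem_centralizer_singleton_iff.2 htu.symm
    have h2 : r * u * r⁻¹ ∈ D := by
      rw [hD, Subgroup.mem_centralizer_singleton_iff, hr]
      calc r * u * r⁻¹ * (r * y * r⁻¹) = r * (u * y) * r⁻¹ := by group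
        _ = r * (y * u) * r⁻¹ := by rw [hyu]
        _ = r * y * r⁻¹ * (r * u * r⁻¹) := by group
    have i1 : Inv2 (⟨u, h1⟩ : D) := by
      refine ⟨Subtype.ext hu.sq, ?_⟩
      intro h
      exact hu.ne (congrArg Subtype.val h)
    have i2 : Inv2 (⟨r * u * r⁻¹, h2⟩ : D) := by
      refine ⟨Subtype.ext ?_, ?_⟩
      · change r * u * r⁻¹ * (r * u * r⁻¹) = 1
        calc r * u * r⁻¹ * (r * u * r⁻¹) = r * (u * u) * r⁻¹ := by group
          _ = 1 := by rw [hu.sq, mul_one, mul_inv_cancel]
      · intro h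
        have h3 : r * u * r⁻¹ = 1 := congrArg Subtype.val h
        have h5 : r * u = r := mul_inv_eq_one.1 h3
        exact hu.ne (mul_eq_left.1 h5)
    have hD4 : ¬ 4 ∣ Nat.card D := by
      rw [hD, hr, card_cent_conj]
      exact h4
    obtain ⟨s, hs⟩ := invol_conj hD4 i2 i1
    have hs' : (s : X) * (r * u * r⁻¹) * (s : X)⁻¹ = u := congrArg Subtype.val hs
    have hsr : (s : X) * r ∈ Cu u := by
      rw [Subgroup.mem_centralizer_singleton_iff]
      calc (s : X) * r * u = (s : X) * (r * u * r⁻¹) * (s : X)⁻¹ * ((s : X) * r) := by group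
        _ = u * ((s : X) * r) := by rw [hs']
    refine ⟨⟨(s : X) * r, hsr⟩, Subtype.ext ?_⟩
    change (t : X) = (s : X) * r * y * ((s : X) * r)⁻¹
    have hst : (s : X) * t = t * s := Subgroup.mem_centralizer_singleton_iff.1 s.2
    calc (t : X) = (t * s) * (s : X)⁻¹ := by group
      _ = ((s : X) * t) * (s : X)⁻¹ := by rw [hst]
      _ = ((s : X) * (r * y * r⁻¹)) * (s : X)⁻¹ := by rw [hr]
      _ = (s : X) * r * y * ((s : X) * r)⁻¹ := by group
  · rintro ⟨r, hr⟩
    exact ⟨r, congrArg Subtype.val hr⟩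

end grp

section core

variable {F X : Type} [Field F] [Group X] [Finite X]

theorem cent_zpowers (u : X) : Subgroup.centralizer (Subgroup.zpowers u : Set X) = Cu u := by
  ext t
  rw [Subgroup.mem_centralizer_iff, Subgroup.mem_centralizer_singleton_iff]
  constructor
  · intro h
    exact (h u (Subgroup.mem_zpowers u)).symm
  · rintro h _ ⟨n, rfl⟩
    have h1 : Commute u t := h.symm
    exact h1.zpow_left n

/-- restriction of class functions to the centraliser of an involution is multiplicative -/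
theorem restr_mul (hF : GoodF 2 F) {u : X} (hu : Inv2 u) {a b : X → F} (ha : IsCl a)
    (hb : IsCl b) : (fun t : Cu u => mulF a b t) =
      mulF (fun t : Cu u => a t) (fun t : Cu u => b t) := by
  have hmem : ∀ t : Cu u, (t : X) ∈ Subgroup.centralizer (Subgroup.zpowers u : Set X) := by
    intro t
    rw [cent_zpowers]
    exact t.2
  have h1 : ∀ (a : X → F), (fun t : Cu u => a t) = fun t : Cu u => br (Subgroup.zpowers u) a t := by
    intro a
    funext t
    rw [H66.br_of_mem (hmem t)]
  rw [h1, h1 a, h1 b, H66.br_mulF hF (inv2_pgroup hu) (H66.IsCl.inv ha _) (H66.IsCl.inv hb _),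
    H75.mulF_res]
  intro x hx
  apply H66.br_of_not_mem
  rw [cent_zpowers]
  exact hx

theorem restr_iter (hF : GoodF 2 F) {u : X} (hu : Inv2 u) {z b : X → F} (hz : IsCl z)
    (hb : IsCl b) (n : ℕ) : IsCl ((mulF z)^[n] b) ∧ (fun t : Cu u => (mulF z)^[n] b t) =
      (mulF (fun t : Cu u => z t))^[n] (fun t : Cu u => b t) := by
  induction n with
  | zero => exact ⟨hb, rfl⟩
  | succ n ih =>
    rw [Function.iterate_succ_apply', Function.iterate_succ_apply']
    refine ⟨H75.isCl_mulF hz ih.1, ?_⟩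
    rw [restr_mul hF hu hz ih.1, ih.2]

theorem iter_mul {Y : Type} [Group Y] [Finite Y] (z b c : Y → F) (hbc : mulF b c = c) (n : ℕ) :
    mulF ((mulF z)^[n] b) c = (mulF z)^[n] c := by
  induction n with
  | zero => exact hbc
  | succ n ih =>
    rw [Function.iterate_succ_apply', Function.iterate_succ_apply', H20.mulF_assoc, ih]

/-- the blocks of the centraliser of an involution below a block with Klein four defect groups -/
theorem core (inv : InvStmt) (hF : GoodF 2 F) {b : X → F} (hb : VB b) {u : X} (hu : Inv2 u)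
    {c : Cu u → F} (hc : IsBlk c) (hbc : mulF (fun t : Cu u => b t) c = c) : VB c := by
  classical
  have hbcl : IsCl (fun t : Cu u => b t) := fun x y => hb.blk.1.1 _ _
  refine ⟨hc, ?_, ?_⟩
  · exact (hb.df.sub v4_sub le_top).le hF hbcl hc.1.1 hbc
  by_contra hex
  obtain ⟨n, ρ, hρ, h1⟩ := H20.blk_rep hF hc.1 hc.2.1
  obtain ⟨y, hcy, w, hw, hwy⟩ := D1H51.exists_class hρ hc.1.1 h1
  have hnn := D1H51.not_nil hρ hw hwy h1
  have h4 : ¬ 4 ∣ Nat.card (Subgroup.centralizer ({(y : X)} : Set X)) := by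
    intro hd
    have hyu : (y : X) * u = u * y := Subgroup.mem_centralizer_singleton_iff.1 y.2
    obtain ⟨V, hV, hVu, hVy⟩ := exists_four hu hyu.symm hd
    apply hex
    refine ⟨V.subgroupOf (Cu u), ?_, y, ?_, hcy⟩
    · rw [Nat.card_congr (Subgroup.subgroupOfEquivOfLe hVu).toEquiv, hV]
    · rw [Subgroup.mem_centralizer_iff]
      intro v hv
      have h5 : (v : X) ∈ V := hv
      exact Subtype.ext (Subgroup.mem_centralizer_singleton_iff.1 (hVy h5))
  have hres : (fun t : Cu u => clsum F ⊤ (y : X) t) = clsum F ⊤ y := by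
    funext t
    by_cases h : ∃ r : Cu u, t = r * y * r⁻¹
    · rw [clsum_pos h, clsum_pos ((conj_iff hu y h4 t).2 h)]
    · rw [clsum_neg h, clsum_neg (fun h' => h ((conj_iff hu y h4 t).1 h'))]
  have hK : IsCl (clsum F ⊤ (y : X)) := D1H51.clsum_cl _
  obtain ⟨w', hw', hbw⟩ := inv 2 F hF X b (clsum F ⊤ (y : X)) hb.blk hK (by
    intro k h0
    have h5 := (restr_iter hF hu hK hb.blk.1.1 k).2
    rw [h0, hres] at h5
    have h6 := iter_mul (clsum F ⊤ y) (fun t : Cu u => b t) c hbc k
    rw [← h5] at h6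
    apply hnn k
    rw [← h6]
    exact H75.mulF_zero_left c)
  obtain ⟨V, hV, g, hg, hbg⟩ := hb.ex
  have hVp : IsPGroup 2 V := IsPGroup.of_card (n := 2) (by rw [hV]; norm_num)
  have hbrK : br V (clsum F ⊤ (y : X)) = 0 := by
    funext t
    by_cases ht : t ∈ Subgroup.centralizer (V : Set X)
    · rw [H66.br_of_mem ht, clsum_neg]
      · rfl
      rintro ⟨r, rfl⟩
      apply h4
      rw [← card_cent_conj (y : X) r, ← hV]
      apply Subgroup.card_dvd_of_le
      intro v hv
      rw [Subgroup.mem_centralizer_singleton_iff]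
      exact Subgroup.mem_centralizer_iff.1 ht v hv
    · exact H66.br_of_not_mem ht
  apply hbg
  have h5 : br V b = 0 := by
    rw [← hbw, H66.br_mulF hF hVp (H66.IsCl.inv hb.blk.1.1 V)
      (H66.IsCl.inv (H75.isCl_mulF hK hw') V),
      H66.br_mulF hF hVp (H66.IsCl.inv hK V) (H66.IsCl.inv hw' V), hbrK, H75.mulF_zero_left,
      H75.mulF_zero_right]
  have h6 := congrFun h5 g
  rwa [H66.br_of_mem hg] at h6

end core

attribute [local instance] Ideal.Quotient.field

/-- DU4 -/
theorem du4 (inv : InvStmt) : Du4Stmt := by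
  intro M _ hM X _ _ b hb u hu c hc hbc
  exact core inv (H50.fld 2 Nat.prime_two M hM) hb hu hc hbc

end Pool.Agent.PP.KF.H24
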